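import Mathlib
import Pool.Agent.H39.RCFinal

set_option autoImplicit false

/-!
For `p = 2n + m ≥ 15000`, every relative clique of a planar `(n,m)`-graph has at most
`3p² + p + 1` vertices: the conjectured value is an upper bound.
-/

namespace Pool.Agent.Results.MP_1c6977_co.LargeParameterUpperBound

open Pool.Agent.H39.RC

/-- The labels of the adjacencies: `n` types of arcs, each with two directions, and `m` types of
edges. There are `p = 2n + m` of them. -/
abbrev Label (n m : ℕ) : Type := Fin n × Bool ⊕ Fin m

/-- reverse the direction of an arc label -/
def flip {n m : ℕ} : Label n m → Label n m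
  | Sum.inl (i, b) => Sum.inl (i, !b)
  | Sum.inr j => Sum.inr j

/-- An `(n,m)`-graph on the vertex set `V`. `c u v = none`: `u` and `v` are not adjacent;
`c u v = some (inl (i, true))`: there is an arc of type `i` from `u` to `v`;
`c u v = some (inl (i, false))`: there is an arc of type `i` from `v` to `u`;
`c u v = some (inr j)`: there is an edge of type `j` between `u` and `v`. -/
structure NMGraph (n m : ℕ) (V : Type) where
  c : V → V → Option (Label n m)
  irrefl : ∀ u, c u u = none
  symm : ∀ u v, c v u = (c u v).map flip

/-- the underlying simple graph -/
def NMGraph.und {n m : ℕ} {V : Type} (X : NMGraph n m V) : SimpleGraph V where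
  Adj u v := X.c u v ≠ none
  symm := ⟨by
    intro u v h h'
    rw [X.symm u v] at h'
    exact h (Option.map_eq_none_iff.mp h')⟩
  loopless := ⟨fun u h => h (X.irrefl u)⟩

/-- homomorphisms: adjacencies are mapped to adjacencies of the same type and direction -/
def IsHom {n m : ℕ} {V W : Type} (X : NMGraph n m V) (Y : NMGraph n m W) (f : V → W) : Prop :=
  ∀ u v l, X.c u v = some l → Y.c (f u) (f v) = some l

/-- `R` is a relative clique: every homomorphism to a finite `(n,m)`-graph is injective on `R` -/
def IsRelClique {n m : ℕ} {V : Type} (X : NMGraph n m V) (R : Finset V) : Prop :=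
  ∀ (W : Type) (_ : Finite W) (Y : NMGraph n m W) (f : V → W), IsHom X Y f →
    Set.InjOn f (R : Set V)

lemma flip_flip {n m : ℕ} (l : Label n m) : flip (flip l) = l := by
  rcases l with ⟨i, b⟩ | j
  · simp [flip]
  · rfl

open Classical in
/-- identify `v` with `u` -/
noncomputable def ident {n m : ℕ} {V : Type} (X : NMGraph n m V) (u v : V) (huv : u ≠ v)
    (hn : X.c u v = none) : NMGraph n m V where
  c x y := if x = v ∨ y = v then none
    else if x = u then (X.c u y).or (X.c v y)
    else if y = u then (X.c x u).or (X.c x v)
    else X.c x y
  irrefl x := by
    have hn' : X.c v u = none := by rw [X.symm u v, hn]; rfl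
    by_cases h1 : x = v
    · simp [h1]
    · by_cases h2 : x = u
      · subst h2
        simp [h1, X.irrefl, hn']
      · simp [h1, h2, X.irrefl]
  symm x y := by
    by_cases h1 : x = v
    · simp [h1]
    · by_cases h2 : y = v
      · simp [h2]
      · by_cases h3 : x = u
        · by_cases h4 : y = u
          · have hn' : X.c v u = none := by rw [X.symm u v, hn]; rfl
            simp [h3, h4, huv, X.irrefl, hn']
          · simp only [h2, h3, h4, or_self, if_true, if_false, huv]
            rw [X.symm u y, X.symm v y]
            cases X.c u y <;> simp
        · by_cases h4 : y = u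
          · simp only [h1, h3, h4, or_self, if_true, if_false, huv]
            rw [X.symm x u, X.symm x v]
            cases X.c x u <;> simp
          · simp only [h1, h2, h3, h4, or_self, if_false]
            exact X.symm x y

/-- a relative clique satisfies the combinatorial condition -/
lemma clq_of_relClique {n m : ℕ} {V : Type} [Finite V] [Inhabited (Label n m)]
    (X : NMGraph n m V) (R : Finset V) (hR : IsRelClique X R) :
    Clq X.und (fun w u => (X.c w u).getD default) R := by
  classical
  intro u hu v hv huv
  by_contra hcon
  push Not at hcon
  obtain ⟨h1, h2⟩ := hcon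
  have hn : X.c u v = none := by
    by_contra h
    exact h1 h
  have hn' : X.c v u = none := by rw [X.symm u v, hn]; rfl
  -- `u` and `v` agree on all common neighbours
  have hag : ∀ w k l, X.c u w = some k → X.c v w = some l → k = l := by
    intro w k l hk hl
    have e1 : X.c w u = some (flip k) := by rw [X.symm u w, hk]; rfl
    have e2 : X.c w v = some (flip l) := by rw [X.symm v w, hl]; rfl
    have := h2 w (by
      show X.c w u ≠ none
      rw [e1]; exact Option.some_ne_none _) (by
      show X.c w v ≠ none
      rw [e2]; exact Option.some_ne_none _)
    simp only [e1, e2, Option.getD_some] at this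
    rw [← flip_flip k, this, flip_flip]
  have hag' : ∀ w k l, X.c w u = some k → X.c w v = some l → k = l := by
    intro w k l hk hl
    have e1 : X.c u w = some (flip k) := by rw [X.symm w u, hk]; rfl
    have e2 : X.c v w = some (flip l) := by rw [X.symm w v, hl]; rfl
    have := hag w _ _ e1 e2
    rw [← flip_flip k, this, flip_flip]
  set f : V → V := fun x => if x = v then u else x with hf
  have hfv : f v = u := by simp [hf]
  have hfn : ∀ x, x ≠ v → f x = x := fun x hx => by simp [hf, hx]
  have hom : IsHom X (ident X u v huv hn) f := by
    intro x y l hxy
    by_cases hx : x = v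
    · have hyv : y ≠ v := by
        rintro rfl
        rw [hx, X.irrefl] at hxy
        exact Option.some_ne_none _ hxy.symm
      rw [hx] at hxy ⊢
      rw [hfv, hfn y hyv]
      simp only [ident, huv, hyv, or_self, if_false, if_true]
      cases huy : X.c u y with
      | none => simpa using hxy
      | some k => rw [hag y k l huy hxy]; rfl
    · by_cases hy : y = v
      · rw [hy] at hxy ⊢
        rw [hfv, hfn x hx]
        have hxu : x ≠ u := by
          rintro rfl
          rw [hn] at hxy
          exact Option.some_ne_none _ hxy.symm
        simp only [ident, huv, hx, hxu, or_self, if_false, if_true]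
        cases hux : X.c x u with
        | none => simpa using hxy
        | some k => rw [hag' x k l hux hxy]; rfl
      · rw [hfn x hx, hfn y hy]
        by_cases hxu : x = u
        · rw [hxu] at hxy ⊢
          simp only [ident, huv, hy, or_self, if_false, if_true]
          rw [hxy]; rfl
        · by_cases hyu : y = u
          · rw [hyu] at hxy ⊢
            simp only [ident, huv, hx, hxu, or_self, if_false, if_true]
            rw [hxy]; rfl
          · simp only [ident, hx, hy, hxu, hyu, or_self, if_false]
            exact hxy
  have hinj := hR V inferInstance (ident X u v huv hn) f hom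
  exact huv (hinj (Finset.mem_coe.mpr hu) (Finset.mem_coe.mpr hv) (by
    rw [hfv, hfn u huv]))

/-- Let `p = 2n + m ≥ 15000`. In every finite planar `(n,m)`-graph, every relative clique has at
most `3p² + p + 1` vertices. (`Planar`: no `K₅` minor and no `K₃,₃` minor.) -/
theorem result : ∀ n m : ℕ, 15000 ≤ 2 * n + m →
    ∀ (V : Type) (_ : Finite V) (X : NMGraph n m V), Planar X.und →
      ∀ R : Finset V, IsRelClique X R → R.card ≤ 3 * (2 * n + m) ^ 2 + (2 * n + m) + 1 := by
  intro n m hp V _ X hX R hR
  have hcard : Fintype.card (Label n m) = 2 * n + m := by
    simp [Label, mul_comm]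
  have : Nonempty (Label n m) := by
    rw [← Fintype.card_pos_iff, hcard]
    omega
  have : Inhabited (Label n m) := Classical.inhabited_of_nonempty this
  have h := main_bound hX (clq_of_relClique X R hR) (by rw [hcard]; exact hp)
  rw [hcard] at h
  rw [pow_two]
  exact h

end Pool.Agent.Results.MP_1c6977_co.LargeParameterUpperBound
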